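import Mathlib
import Pool.Agent.H64.Golod

set_option autoImplicit false

namespace Pool.Agent.Results.MP_42b5d3_al.Yes

/-- The basic condition for left modules. -/
def LeftBasic (R : Type) [Ring R] : Prop :=
  ∀ (M A : Type) [AddCommGroup M] [Module R M] [AddCommGroup A] [Module R A], Module.Finite R M →
    ∀ (f i : A →ₗ[R] M), Function.Surjective f → Function.Injective i → Function.Bijective f

/-- Basic rings: the condition holds for left and for right modules. -/
def Basic (R : Type) [Ring R] : Prop := LeftBasic R ∧ LeftBasic Rᵐᵒᵖ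

/-- Every finite subset lies in a left and right noetherian subring. -/
def FNoetherian (R : Type) [Ring R] : Prop :=
  ∀ s : Finset R, ∃ T : Subring R, (s : Set R) ⊆ T ∧ IsNoetherianRing T ∧ IsNoetherianRing Tᵐᵒᵖ

open Polynomial Pool.Agent.H64.Golod
open scoped Pointwise Matrix
open Matrix hiding J

theorem inv_of_integral {F S : Type} [Field F] [Ring S] [Algebra F S] {n : ℕ}
    {C : Matrix (Fin n) (Fin n) S} (hC : IsIntegral F C) (V : Submodule S (Fin n → S))
    (h : ∀ v, v ᵥ* C ∈ V → v ∈ V) : ∀ v ∈ V, v ᵥ* C ∈ V := by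
  have h1 : ∀ (c : F) (D : Matrix (Fin n) (Fin n) S), (∀ v ∈ V, v ᵥ* (D + algebraMap F _ c) ∈ V) →
      ∀ v ∈ V, v ᵥ* D ∈ V := fun c D hD v hv => by
    have := hD v hv
    rw [vecMul_add, Algebra.algebraMap_eq_smul_one, vecMul_smul, vecMul_one,
      ← algebraMap_smul S] at this
    exact (V.add_mem_iff_left (V.smul_mem _ hv)).mp this
  have h2 : ∀ (k : ℕ) (P : F[X]), P.Monic → P.natDegree = k + 1 → (∀ v ∈ V, v ᵥ* aeval C P ∈ V) →
      ∀ v ∈ V, v ᵥ* C ∈ V := fun k => by
    induction k with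
    | zero =>
      intro P h3 h4 h5
      rw [h3.eq_X_add_C h4, map_add, aeval_X, aeval_C] at h5
      exact h1 _ _ h5
    | succ k ih =>
      intro P h3 h4 h5
      have h6 : (divX P).natDegree = k + 1 := by rw [natDegree_divX_eq_natDegree_tsub_one, h4]; rfl
      refine ih (divX P) (by rw [Monic, leadingCoeff, h6, coeff_divX, ← h4]; exact h3) h6
        fun v hv => h _ ?_
      rw [← divX_mul_X_add P, map_add, map_mul, aeval_X, aeval_C] at h5
      rw [vecMul_vecMul]
      exact h1 _ _ h5 v hv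
  obtain ⟨P, h3, h4⟩ := hC
  refine h2 _ (P * X) (h3.mul monic_X) (natDegree_mul_X h3.ne_zero) fun v _ => ?_
  rw [map_mul, aeval_def, h4, zero_mul, vecMul_zero]
  exact V.zero_mem

theorem basic_of_integral {F S : Type} [Field F] [Ring S] [Algebra F S]
    (h : ∀ (n : ℕ) (C : Matrix (Fin n) (Fin n) S), IsIntegral F C) : LeftBasic S := by
  intro M A _ _ _ _ hM f i hf hi
  refine ⟨(injective_iff_map_eq_zero f).mpr fun a ha => ?_, hf⟩
  obtain ⟨n, q₀, hq⟩ := Module.Finite.exists_fin' S M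
  obtain ⟨p₀, hp⟩ := Module.projective_lifting_property f q₀ hf
  let p : (Fin (n + 1) → S) →ₗ[S] A := p₀ ∘ₗ LinearMap.funLeft S S Fin.succ +
    LinearMap.toSpanSingleton S A a ∘ₗ LinearMap.proj 0
  have h1 : Function.Surjective (f ∘ₗ p) := fun m => by
    obtain ⟨v, rfl⟩ := hq m
    exact ⟨Fin.cons 0 v, by simp [p, ← hp, LinearMap.funLeft, Function.comp_def]⟩
  obtain ⟨g, hg⟩ := Module.projective_lifting_property (f ∘ₗ p) (i ∘ₗ p) h1
  have h2 : ∀ v, v ᵥ* LinearMap.toMatrixRight' g = g v := fun v =>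
    LinearMap.congr_fun (LinearMap.toMatrixRight'.symm_apply_apply g) v
  have h3 : ∀ v, f (p (g v)) = i (p v) := LinearMap.congr_fun hg
  have h4 := inv_of_integral (h _ (LinearMap.toMatrixRight' g)) (LinearMap.ker (f ∘ₗ p))
    (fun v hv => by
      rw [h2, LinearMap.mem_ker, LinearMap.comp_apply, h3, map_eq_zero_iff i hi] at hv
      simp [hv]) (Pi.single 0 1)
  have h5 : p (Pi.single 0 1) = a := by
    have : LinearMap.funLeft S S Fin.succ (Pi.single (0 : Fin (n + 1)) 1) = 0 := by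
      ext j
      simp [LinearMap.funLeft]
    simp [p, this]
  rw [h2, LinearMap.mem_ker, LinearMap.mem_ker, LinearMap.comp_apply, LinearMap.comp_apply, h3,
    h5, map_eq_zero_iff i hi] at h4
  exact h4 ha

theorem levitzki {R : Type} [Ring R] [IsNoetherianRing R] (P : Set R)
    (h1 : ∀ a ∈ P, ∀ x, a * x ∈ P) (h2 : ∀ a ∈ P, IsNilpotent a) : ∃ k, P ^ k ⊆ {0} := by
  obtain ⟨N, ⟨hN, k, hk⟩, hm⟩ := set_has_maximal_iff_noetherian.mpr
    (inferInstance : IsNoetherian R R)
    {N : Ideal R | (∀ a ∈ N, ∀ x, a * x ∈ N) ∧ ∃ k, (N : Set R) ^ k ⊆ {0}}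
    ⟨⊥, by simp, 1, by simp⟩
  refine ⟨k, (Set.pow_subset_pow_left fun b hb => by_contra fun hb' => ?_).trans hk⟩
  obtain ⟨_, ⟨a, ⟨ha, ha'⟩, rfl⟩, hm'⟩ := set_has_maximal_iff_noetherian.mpr
    (inferInstance : IsNoetherian R R)
    ((fun a => N.comap (LinearMap.toSpanSingleton R R a)) '' {a | a ∈ P ∧ a ∉ N}) ⟨_, b, ⟨hb, hb'⟩, rfl⟩
  have h3 : ∀ x, a * x * a ∈ N := fun x => by
    classical
    have h4 : ∃ j, (a * x) ^ (j + 1) ∈ N := by
      obtain ⟨j, hj⟩ := h2 _ (h1 a ha x)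
      exact ⟨j, by rw [pow_succ, hj, zero_mul]; exact N.zero_mem⟩
    rcases e : Nat.find h4 with _ | j
    · have := Nat.find_spec h4
      rw [e, zero_add, pow_one] at this
      exact hN _ this a
    · have h5 := Nat.find_spec h4
      have h6 : (a * x) ^ (j + 1) = a * (x * (a * x) ^ j) := by rw [pow_succ', mul_assoc]
      have h7 := hm' _ ⟨(a * x) ^ (j + 1), ⟨h6 ▸ h1 a ha _, Nat.find_min h4 (by omega)⟩, rfl⟩
      have h8 := (eq_or_lt_of_le (a := N.comap (LinearMap.toSpanSingleton R R a))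
        (b := N.comap (LinearMap.toSpanSingleton R R ((a * x) ^ (j + 1)))) fun y (hy : y * a ∈ N) => show y * (a * x) ^ (j + 1) ∈ N by
          rw [h6, ← mul_assoc]; exact hN _ hy _).resolve_right h7
      have h9 : a * x ∈ N.comap (LinearMap.toSpanSingleton R R a) := by
        rw [h8]
        change a * x * (a * x) ^ (j + 1) ∈ N
        rwa [← pow_succ', ← e]
      exact h9
  let N' := N ⊔ Ideal.span (Set.range (a * ·))
  have h4 : ∀ Q : Ideal R, N ≤ Q → (∀ x, a * x ∈ Q) → N' ≤ Q := fun Q e e' =>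
    sup_le e (Ideal.span_le.mpr (Set.range_subset_iff.mpr e'))
  have h5 : ∀ x, a * x ∈ N' := fun x => Submodule.mem_sup_right (Ideal.subset_span ⟨x, rfl⟩)
  refine hm N' ⟨fun y hy x => h4 (N'.comap (LinearMap.toSpanSingleton R R x))
    (fun z hz => Submodule.mem_sup_left (hN z hz x)) (fun z => show a * z * x ∈ N' from
      mul_assoc a z x ▸ h5 _) hy, 2 * k, ?_⟩
    (lt_of_le_of_ne le_sup_left fun e => ha' (by simpa [← e] using h5 1))
  rw [pow_mul]
  refine (Set.pow_subset_pow_left ?_).trans hk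
  rw [sq]
  rintro _ ⟨y, hy, z, hz, rfl⟩
  refine h4 (N.comap (LinearMap.toSpanSingleton R R z)) (fun w hw => hN w hw z) (fun w => ?_) hy
  change a * w * z ∈ N
  obtain ⟨z₁, e₁, z₂, e₂, rfl⟩ := Submodule.mem_sup.mp hz
  rw [mul_add]
  refine N.add_mem (Ideal.mul_mem_left N _ e₁) ?_
  suffices ∀ w, a * w * z₂ ∈ N from this w
  clear hz
  induction e₂ using Submodule.span_induction with
  | mem _ h =>
    obtain ⟨u, rfl⟩ := h
    exact fun w => by simpa [mul_assoc] using hN _ (h3 w) u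
  | zero => simp
  | add _ _ _ _ h h' => exact fun w => by rw [mul_add]; exact N.add_mem (h w) (h' w)
  | smul r _ _ h => exact fun w => by simpa [mul_assoc] using h (w * r)

/-- The ground field. -/
abbrev F := ZMod 2

/-- Matrix entries. -/
abbrev T := Σ n : ℕ, Matrix (Fin n) (Fin n) (A F) × Fin n × Fin n

theorem rel : ∃ r : ℕ → A F, (∀ k, r k ∈ J F (k + 2)) ∧ ∀ (n : ℕ) (M : Matrix (Fin n) (Fin n) (A F)),
    (∀ i j, M i j ∈ J F 1) → ∃ e, ∀ i j, ∃ k, r k = (M ^ e) i j := by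
  classical
  have : Countable (A F) := MonoidAlgebra.coeff_injective.countable
  have : ∀ n, Countable (Matrix (Fin n) (Fin n) (A F)) := fun n =>
    inferInstanceAs (Countable (Fin n → Fin n → A F))
  obtain ⟨c, hc⟩ := exists_injective_nat T
  let g : T → A F := fun t => if ∀ i j, t.2.1 i j ∈ J F 1 then
    (t.2.1 ^ ((∑ p, c ⟨t.1, t.2.1, p⟩) + 2)) t.2.2.1 t.2.2.2 else 0
  refine ⟨Function.extend c g 0, fun k => ?_, fun n M hM => ⟨(∑ p, c ⟨n, M, p⟩) + 2, fun i j =>
    ⟨c ⟨n, M, i, j⟩, by rw [hc.extend_apply]; exact if_pos hM⟩⟩⟩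
  by_cases h : ∃ t, c t = k
  · obtain ⟨⟨n, M, p⟩, rfl⟩ := h
    rw [hc.extend_apply]
    simp only [g]
    split_ifs with hM
    · have : ∀ m i j, (M ^ m) i j ∈ J F m := fun m => by
        induction m with
        | zero => exact fun _ _ => trivial
        | succ m ih =>
          intro i j
          rw [pow_succ', Matrix.mul_apply]
          exact Submodule.sum_mem _ fun l _ => J_mul 1 m _ _ (hM i l) (ih l j)
      exact J_anti' (Nat.add_le_add_right (Finset.single_le_sum (f := fun p => c ⟨n, M, p⟩)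
        (fun _ _ => Nat.zero_le _) (Finset.mem_univ p)) 2) (this _ _ _)
    · exact zero_mem _
  · rw [Function.extend_apply' _ _ _ h]
    exact zero_mem _

/-- The augmentation. -/
noncomputable def ε : A F →ₐ[F] F := MonoidAlgebra.lift F F _ (FreeMonoid.lift fun _ => 0)

theorem ε_ker {a : A F} (h : ε a = 0) : a ∈ J F 1 := by
  obtain ⟨c, u, rfl⟩ := decomp a
  have : c = 0 := by simpa [D_apply, ε, x] using h
  exact mem_J_succ.mpr ⟨u, fun _ => trivial, by simp [this]⟩

theorem fin_J (n : ℕ) : ∃ W : Submodule F (A F), W.FG ∧ W ⊔ J F n = ⊤ := by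
  induction n with
  | zero => exact ⟨⊥, Submodule.fg_bot, bot_sup_eq _⟩
  | succ n ih =>
    obtain ⟨W, h1, h2⟩ := ih
    refine ⟨(F ∙ 1) ⊔ (Submodule.pi Set.univ fun _ => W).map (D F), (Submodule.fg_span_singleton _).sup
      ((Submodule.fg_pi fun _ => h1).map _), eq_top_iff.mpr fun a _ => ?_⟩
    obtain ⟨c, u, rfl⟩ := decomp a
    choose w hw z hz e using fun j => Submodule.mem_sup.mp (h2.ge (Submodule.mem_top (x := u j)))
    rw [show u = w + z from funext fun j => (e j).symm, map_add, ← add_assoc]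
    exact Submodule.add_mem_sup (Submodule.add_mem_sup (Submodule.smul_mem _ _
      (Submodule.mem_span_singleton_self _)) ⟨w, fun j _ => hw j, rfl⟩)
      (mem_J_succ.mpr ⟨z, hz, rfl⟩)

theorem kill {R : Type} [Ring R] [Algebra F R] (ρ : A F →ₐ[F] R) (k : ℕ)
    (hk : (ρ '' J F 1) ^ k ⊆ {0}) (n : ℕ) :
    ∀ m, n + m = k → ∀ b ∈ (ρ '' J F 1) ^ m, ∀ a ∈ J F n, b * ρ a = 0 := by
  induction n with
  | zero =>
    intro m e b hb a _
    rw [show b = 0 from hk (show k = m by omega ▸ hb), zero_mul]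
  | succ n ih =>
    intro m e b hb a ha
    obtain ⟨u, hu, rfl⟩ := mem_J_succ.mp ha
    rw [D_apply, map_sum, Finset.mul_sum]
    refine Finset.sum_eq_zero fun j _ => ?_
    rw [map_mul, ← mul_assoc]
    refine ih (m + 1) (by omega) _ ?_ _ (hu j)
    rw [pow_succ]
    exact Set.mul_mem_mul hb ⟨_, x_mem j, rfl⟩

theorem kill' {R : Type} [Ring R] [Algebra F R] [IsNoetherianRing R] (ρ : A F →ₐ[F] R)
    (h1 : ∀ a ∈ ρ '' J F 1, ∀ x, a * x ∈ ρ '' J F 1) (h2 : ∀ a ∈ ρ '' J F 1, IsNilpotent a) :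
    ∃ k, ∀ a ∈ J F k, ρ a = 0 := by
  obtain ⟨k, hk⟩ := levitzki _ h1 h2
  exact ⟨k, fun a ha => by simpa using kill ρ k hk k 0 rfl 1 (by simp) a ha⟩

theorem main {R : Type} [Ring R] [Algebra F R] (ρ : A F →ₐ[F] R) (hρ : Function.Surjective ρ)
    (r : ℕ → A F) (h3 : ∀ k, ρ (r k) = 0) (h2 : ∀ (n : ℕ) (M : Matrix (Fin n) (Fin n) (A F)),
      (∀ i j, M i j ∈ J F 1) → ∃ e, ∀ i j, ∃ k, r k = (M ^ e) i j) :
    Basic R ∧ (FNoetherian R → ∃ k, ∀ a ∈ J F k, ρ a = 0) := by
  classical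
  have h4 : ∀ (n : ℕ) (C : Matrix (Fin n) (Fin n) R), IsIntegral F C := fun n C => by
    choose M hM using fun i j => hρ (C i j)
    obtain rfl : C = ρ.mapMatrix (Matrix.of M) := by ext i j; simp [hM]
    obtain ⟨e, he⟩ := h2 n (aeval (Matrix.of M) (ε.mapMatrix (Matrix.of M)).charpoly) fun i j =>
      ε_ker (congrFun₂ ((aeval_algHom_apply ε.mapMatrix _ _).symm.trans
        (Matrix.aeval_self_charpoly _)) i j)
    refine ⟨_, (Matrix.charpoly_monic (ε.mapMatrix (Matrix.of M))).pow e, ?_⟩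
    rw [← aeval_def, aeval_algHom_apply, map_pow]
    ext1 i j
    obtain ⟨k, hk⟩ := he i j
    exact (congrArg ρ hk.symm).trans (h3 k)
  refine ⟨⟨basic_of_integral h4, basic_of_integral (F := F) fun n C =>
    ?_⟩, fun h => ?_⟩
  · obtain ⟨P, h5, h6⟩ := h4 n (AlgEquiv.mopMatrix (R := F) C).unop
    refine ⟨P, h5, (AlgEquiv.mopMatrix (R := F)).injective ?_⟩
    rw [← aeval_def, ← aeval_algHom_apply, map_zero, ← MulOpposite.op_unop (AlgEquiv.mopMatrix C),
      aeval_op_apply, aeval_def, h6, MulOpposite.op_zero]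
  · obtain ⟨S, h5, h6, -⟩ := h (Finset.univ.image fun j => ρ (x F j))
    have h7 : ∀ a, ρ a ∈ S := fun a => by
      induction a using MonoidAlgebra.induction_linear with
      | zero => simp
      | add a b ha hb => simpa using S.add_mem ha hb
      | single w c =>
        induction w using FreeMonoid.inductionOn' with
        | one =>
          fin_cases c
          · exact (map_zero ρ ▸ S.zero_mem : ρ 0 ∈ S) |> (MonoidAlgebra.single_zero 1).symm.rec
          · exact map_one ρ ▸ S.one_mem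
        | of_mul j w ih =>
          rw [← one_mul c, ← MonoidAlgebra.single_mul_single, map_mul]
          exact S.mul_mem (h5 (by simp [x])) ih
    have : IsNoetherianRing R := isNoetherianRing_of_surjective S _ S.subtype fun y => by
      obtain ⟨a, rfl⟩ := hρ y
      exact ⟨⟨_, h7 a⟩, rfl⟩
    exact kill' ρ (by
      rintro _ ⟨a, ha, rfl⟩ y
      obtain ⟨b, rfl⟩ := hρ y
      exact ⟨_, J_right 1 a b ha, map_mul ..⟩) (by
      rintro _ ⟨a, ha, rfl⟩
      obtain ⟨e, he⟩ := h2 1 (Matrix.scalar _ a) fun i j => by simpa [Subsingleton.elim i j]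
      obtain ⟨k, hk⟩ := he 0 0
      exact ⟨e, by rw [← map_pow, ← h3 k, hk, ← map_pow]; simp⟩)

theorem result : ∃ (R : Type) (_ : Ring R), Basic R ∧ ¬ FNoetherian R := by
  obtain ⟨r, h1, h2⟩ := rel
  have h3 : ∀ k, (act r).rangeRestrict (r k) = 0 := fun k =>
    Subtype.ext (LinearMap.ext fun m => by
      obtain ⟨b, rfl⟩ := (I r).mkQ_surjective m
      exact (Submodule.Quotient.mk_eq_zero (I r)).mpr
        (I_right r (r k) b (Submodule.subset_span ⟨1, k, 1, by simp⟩)))
  obtain ⟨h4, h5⟩ := main (R := (act r).range) (act r).rangeRestrict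
    (act r).rangeRestrict_surjective r h3 h2
  refine ⟨(act r).range, inferInstance, h4, fun h => ?_⟩
  obtain ⟨k, h8⟩ := h5 h
  obtain ⟨W, h9, h10⟩ := fin_J k
  refine infinite_dim r h1 ⟨?_⟩
  have : (J F k).map (I r).mkQ = ⊥ := eq_bot_iff.mpr (by
    rintro _ ⟨a, ha, rfl⟩
    have h11 : (I r).mkQ (a * 1) = 0 :=
      congrArg (fun y : (act r).range => y.1 ((I r).mkQ 1)) (h8 a ha)
    rwa [mul_one] at h11)
  rw [← Submodule.range_mkQ, ← Submodule.map_top, ← h10, Submodule.map_sup, this, sup_bot_eq]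
  exact h9.map _

end Pool.Agent.Results.MP_42b5d3_al.Yes
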